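import Mathlib

set_option linter.unusedSectionVars false

namespace Pool.Agent.H33.ExtShift

open Module Submodule

section lin

variable {K W : Type*} [Field K] [AddCommGroup W] [Module K W] [FiniteDimensional K W]

theorem finrank_span_insert_of_notMem {x : W} {s : Set W} (hx : x ∉ span K s) :
    finrank K (span K (insert x s)) = finrank K (span K s) + 1 := by
  have hx0 : x ≠ 0 := fun h => hx (h ▸ zero_mem _)
  rw [span_insert]
  have h1 := finrank_sup_add_finrank_inf_eq (K ∙ x) (span K s)
  have h2 : (K ∙ x) ⊓ span K s = ⊥ := by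
    rw [← disjoint_iff, disjoint_comm]
    exact disjoint_span_singleton_of_notMem hx
  rw [h2, finrank_bot, finrank_span_singleton hx0] at h1
  omega

theorem finrank_span_insert_of_mem {x : W} {s : Set W} (hx : x ∈ span K s) :
    finrank K (span K (insert x s)) = finrank K (span K s) := by
  rw [span_insert_eq_span hx]

theorem finrank_span_insert_le {x : W} {s : Set W} :
    finrank K (span K (insert x s)) ≤ finrank K (span K s) + 1 := by
  by_cases hx : x ∈ span K s
  · rw [finrank_span_insert_of_mem hx]; omega
  · rw [finrank_span_insert_of_notMem hx]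

/-- Greedy count of the dimension of the span of an initial segment. -/
theorem greedy_count {α Λ : Type*} [DecidableEq α] [LinearOrder Λ] (key : α → Λ)
    (hkey : Function.Injective key) (u : α → W)
    (L : Finset α) (hL : ∀ S ∈ L, ∀ R, key R < key S → R ∈ L)
    [DecidablePred fun S => u S ∉ span K (u '' {R | key R < key S})] :
    (L.filter fun S => u S ∉ span K (u '' {R | key R < key S})).card =
      finrank K (span K (u '' (L : Set α))) := by
  revert hL
  refine Finset.induction_on_max_value key L ?_ ?_
  · intro _
    rw [Finset.filter_empty, Finset.card_empty, Finset.coe_empty, Set.image_empty, span_empty,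
      finrank_bot]
  · intro a s ha hmax ih hL
    have hlow : ∀ S ∈ s, ∀ R, key R < key S → R ∈ s := by
      intro S hS R hR
      have h1 := hL S (Finset.mem_insert_of_mem hS) R hR
      rcases Finset.mem_insert.1 h1 with h | h
      · exfalso; rw [h] at hR; exact absurd (hmax S hS) (not_le.2 hR)
      · exact h
    have ih' := ih hlow
    have hseg : {R | key R < key a} = (s : Set α) := by
      ext R
      constructor
      · intro hR
        have h1 := hL a (Finset.mem_insert_self a s) R hR
        rcases Finset.mem_insert.1 h1 with h | h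
        · exfalso; rw [h] at hR; exact lt_irrefl _ hR
        · exact h
      · intro hR
        refine lt_of_le_of_ne (hmax R hR) ?_
        intro h
        exact ha (hkey h ▸ hR)
    rw [Finset.filter_insert, Finset.coe_insert, Set.image_insert_eq]
    by_cases hx : u a ∈ span K (u '' (s : Set α))
    · rw [if_neg (by rw [hseg]; simpa using hx), ih', finrank_span_insert_of_mem hx]
    · rw [if_pos (by rw [hseg]; exact hx), Finset.card_insert_of_notMem (by simp [ha]), ih',
        finrank_span_insert_of_notMem hx]

/-- nullity is monotone. -/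
theorem finrank_union_le {α : Type*} [DecidableEq α] (v : α → W) (X D : Finset α) :
    finrank K (span K (v '' ((X ∪ D : Finset α) : Set α))) ≤
      finrank K (span K (v '' (X : Set α))) + D.card := by
  induction D using Finset.induction_on with
  | empty => rw [Finset.union_empty, Finset.card_empty, add_zero]
  | insert a D ha ih =>
    rw [Finset.union_insert, Finset.coe_insert, Set.image_insert_eq, Finset.card_insert_of_notMem ha]
    have := finrank_span_insert_le (K := K) (x := v a) (s := v '' ((X ∪ D : Finset α) : Set α))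
    omega

/-- a set all of whose elements outside `I` are coloops. -/
theorem finrank_coloops {α : Type*} [DecidableEq α] (v : α → W) (G I D : Finset α)
    (hI : I ⊆ G) (hD : D ⊆ G) (hdisj : Disjoint I D)
    (hcol : ∀ e ∈ D, v e ∉ span K (v '' ((G.erase e : Finset α) : Set α))) :
    finrank K (span K (v '' ((I ∪ D : Finset α) : Set α))) =
      finrank K (span K (v '' (I : Set α))) + D.card := by
  induction D using Finset.induction_on with
  | empty => rw [Finset.union_empty, Finset.card_empty, add_zero]
  | insert a D ha ih =>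
    have ih' := ih (fun x hx => hD (Finset.mem_insert_of_mem hx))
      (Finset.disjoint_of_subset_right (Finset.subset_insert a D) hdisj)
      (fun e he => hcol e (Finset.mem_insert_of_mem he))
    rw [Finset.union_insert, Finset.coe_insert, Set.image_insert_eq,
      Finset.card_insert_of_notMem ha, finrank_span_insert_of_notMem, ih']
    · ring
    · intro hmem
      refine hcol a (Finset.mem_insert_self a D) (span_mono (Set.image_mono ?_) hmem)
      intro x hx
      have haI : a ∉ I := fun h => (Finset.disjoint_left.1 hdisj h) (Finset.mem_insert_self a D)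
      simp only [Finset.coe_union, Set.mem_union, Finset.mem_coe] at hx
      simp only [Finset.mem_coe, Finset.mem_erase]
      rcases hx with hx | hx
      · exact ⟨fun h => haI (h ▸ hx), hI hx⟩
      · exact ⟨fun h => ha (h ▸ hx), hD (Finset.mem_insert_of_mem hx)⟩

/-- The matroid-exchange contradiction. -/
theorem matroid_contradiction {α : Type*} [Fintype α] [DecidableEq α] (v : α → W)
    (N : Matroid α) (hE : N.E = Set.univ) (p : ℕ)
    (h1 : ∀ B : Finset α, N.IsBase (B : Set α) → finrank K (span K (v '' (B : Set α))) = p)
    (h2 : ∀ B : Finset α, N.IsBase (B : Set α) → p < B.card)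
    (h3 : p < finrank K (span K (Set.range v)))
    (h4 : ∀ x y : α, ∃ π : Equiv.Perm α, π x = y ∧
      (∀ B : Finset α, N.IsBase (B : Set α) → N.IsBase ((B.image π : Finset α) : Set α)) ∧
      (∀ (X : Finset α) (T : α), v T ∈ span K (v '' (X : Set α)) →
        v (π T) ∈ span K (v '' ((X.image π : Finset α) : Set α)))) : False := by
  classical
  obtain ⟨B0, hB0⟩ := N.exists_isBase
  obtain ⟨G0, rfl⟩ : ∃ G0 : Finset α, (G0 : Set α) = B0 := ⟨B0.toFinite.toFinset, Set.Finite.coe_toFinset _⟩
  -- Z = closure of G0
  have hT : ∃ Tstar, v Tstar ∉ span K (v '' (G0 : Set α)) := by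
    by_contra hcon
    push Not at hcon
    have : span K (Set.range v) ≤ span K (v '' (G0 : Set α)) := by
      rw [span_le]; rintro _ ⟨T, rfl⟩; exact hcon T
    have h5 := finrank_mono this
    rw [h1 G0 hB0] at h5
    omega
  obtain ⟨Tstar, hTstar⟩ := hT
  -- a dependent element of G0
  have hT1 : ∃ T1 ∈ G0, v T1 ∈ span K (v '' ((G0.erase T1 : Finset α) : Set α)) := by
    by_contra hcon
    push Not at hcon
    have := finrank_coloops (K := K) v G0 ∅ G0 (Finset.empty_subset _) (Finset.Subset.refl _)
      (Finset.disjoint_empty_left _) hcon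
    rw [Finset.empty_union, Finset.coe_empty, Set.image_empty, span_empty, finrank_bot,
      zero_add, h1 G0 hB0] at this
    have := h2 G0 hB0
    omega
  obtain ⟨T1, hT1G, hT1⟩ := hT1
  obtain ⟨π, hπ, hπB, hπv⟩ := h4 T1 Tstar
  set G2 : Finset α := G0.image π with hG2
  have hG2B : N.IsBase (G2 : Set α) := hπB G0 hB0
  have hTs2 : Tstar ∈ G2 := by rw [hG2, ← hπ]; exact Finset.mem_image_of_mem _ hT1G
  have hdep2 : v Tstar ∈ span K (v '' ((G2.erase Tstar : Finset α) : Set α)) := by
    have := hπv (G0.erase T1) T1 hT1
    rw [hπ] at this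
    have he : (G0.erase T1).image π = G2.erase Tstar := by
      rw [Finset.image_erase π.injective, hπ]
    rwa [he] at this
  have hcardeq : ∀ B B' : Finset α, N.IsBase (B : Set α) → N.IsBase (B' : Set α) →
      B.card = B'.card := by
    intro B B' hB hB'
    have := hB.ncard_eq_ncard_of_isBase hB'
    simpa using this
  -- I = G2 ∩ Z
  set I : Finset α := G2.filter fun T => v T ∈ span K (v '' (G0 : Set α)) with hI
  have hIind : N.Indep (I : Set α) := hG2B.indep.subset (by
    intro x hx; exact (Finset.mem_filter.1 hx).1)
  obtain ⟨B1, hB1, hIB1, hB1sub⟩ := hIind.exists_isBase_subset_union_isBase hB0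
  obtain ⟨G1, rfl⟩ : ∃ G1 : Finset α, (G1 : Set α) = B1 := ⟨B1.toFinite.toFinset, Set.Finite.coe_toFinset _⟩
  have hIG1 : I ⊆ G1 := by exact_mod_cast hIB1
  have hG1Z : ∀ T ∈ G1, v T ∈ span K (v '' (G0 : Set α)) := by
    intro T hT
    have := hB1sub (show T ∈ (G1 : Set α) from hT)
    rcases this with h | h
    · exact (Finset.mem_filter.1 h).2
    · exact subset_span (Set.mem_image_of_mem v h)
  -- there is e ∈ G1 \ I dependent
  have hex : ∃ e ∈ G1, e ∉ I ∧ v e ∈ span K (v '' ((G1.erase e : Finset α) : Set α)) := by
    by_contra hcon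
    push Not at hcon
    have hc := finrank_coloops (K := K) v G1 I (G1 \ I) hIG1 Finset.sdiff_subset
      Finset.disjoint_sdiff (fun e he => hcon e (Finset.mem_sdiff.1 he).1 (Finset.mem_sdiff.1 he).2)
    rw [Finset.union_sdiff_of_subset hIG1, h1 G1 hB1] at hc
    have hIsub : I ⊆ G2.erase Tstar := by
      intro x hx
      refine Finset.mem_erase.2 ⟨?_, (Finset.mem_filter.1 hx).1⟩
      intro h
      exact hTstar (h ▸ (Finset.mem_filter.1 hx).2)
    have hu := finrank_union_le (K := K) v I (G2.erase Tstar \ I)
    rw [Finset.union_sdiff_of_subset hIsub] at hu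
    have hr2 : finrank K (span K (v '' ((G2.erase Tstar : Finset α) : Set α))) = p := by
      rw [← h1 G2 hG2B, ← finrank_span_insert_of_mem hdep2, ← Set.image_insert_eq,
        ← Finset.coe_insert, Finset.insert_erase hTs2]
    rw [hr2] at hu
    have c1 := Finset.card_sdiff_add_card_eq_card hIG1
    have c2 := Finset.card_sdiff_add_card_eq_card hIsub
    have c3 := Finset.card_erase_of_mem hTs2
    have c4 := hcardeq G1 G2 hB1 hG2B
    have c5 : 0 < G2.card := Finset.card_pos.2 ⟨Tstar, hTs2⟩
    omega
  obtain ⟨e, heG1, heI, hedep⟩ := hex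
  have heG2 : e ∉ G2 := fun h => heI (Finset.mem_filter.2 ⟨h, hG1Z e heG1⟩)
  obtain ⟨f, hf, hfB⟩ := hB1.exchange hG2B (show e ∈ (G1 : Set α) \ (G2 : Set α) from ⟨heG1, heG2⟩)
  have hfG2 : f ∈ G2 := hf.1
  have hfG1 : f ∉ G1 := hf.2
  have hset : insert f ((G1 : Set α) \ {e}) = ((insert f (G1.erase e) : Finset α) : Set α) := by
    simp [Finset.coe_insert, Finset.coe_erase]
  rw [hset] at hfB
  have hr := h1 _ hfB
  have hr1 : finrank K (span K (v '' ((G1.erase e : Finset α) : Set α))) = p := by
    rw [← h1 G1 hB1, ← finrank_span_insert_of_mem hedep, ← Set.image_insert_eq,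
      ← Finset.coe_insert, Finset.insert_erase heG1]
  have hfmem : v f ∈ span K (v '' ((G1.erase e : Finset α) : Set α)) := by
    by_contra hcon
    have := finrank_span_insert_of_notMem hcon
    rw [← Set.image_insert_eq, ← Finset.coe_insert, hr, hr1] at this
    omega
  have hfZ : v f ∈ span K (v '' (G0 : Set α)) := by
    have hle : span K (v '' ((G1.erase e : Finset α) : Set α)) ≤ span K (v '' (G0 : Set α)) := by
      rw [span_le]
      rintro _ ⟨T, hT, rfl⟩
      exact hG1Z T (Finset.mem_of_mem_erase hT)
    exact hle hfmem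
  exact hfG1 (hIG1 (Finset.mem_filter.2 ⟨hfG2, hfZ⟩))

end lin

end Pool.Agent.H33.ExtShift
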