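import Mathlib

/-!
# Kalai's exterior algebraic shifting of `k`-uniform hypergraphs

`KSet n k` is the type of `k`-subsets of `[n]` (`Fin n`).  `GenField F n` is the field
`𝕂 = 𝔽(a_ij : i, j)`, `V = 𝕂ⁿ` is `Fin n → GenField F n` with standard basis `e_j`,
`genVec F n i` is `f_i = ∑ j, a_ij e_j`, and for a `k`-set `S` the elements
`eWedge F S`, `fWedge F S` of `⋀^k V` are the wedge products of the `e_s`, resp. of the `f_s`,
for `s ∈ S` taken in increasing order.
-/

namespace Pool.Agent.H33.ExtShift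

universe u

/-- The `k`-subsets of `[n]`. -/
abbrev KSet (n k : ℕ) : Type := Set.powersetCard (Fin n) k

/-- The field `𝕂 = 𝔽(a_ij)` of rational functions in `n²` independent variables. -/
abbrev GenField (F : Type u) [Field F] (n : ℕ) : Type u :=
  FractionRing (MvPolynomial (Fin n × Fin n) F)

/-- The generic scalar `a_ij ∈ 𝕂`. -/
noncomputable def genCoeff (F : Type u) [Field F] (n : ℕ) (i j : Fin n) : GenField F n :=
  algebraMap (MvPolynomial (Fin n × Fin n) F) (GenField F n) (MvPolynomial.X (i, j))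

/-- The standard basis `e_j` of `V = 𝕂ⁿ`. -/
noncomputable def stdVec (F : Type u) [Field F] (n : ℕ) (j : Fin n) : Fin n → GenField F n :=
  Pi.basisFun (GenField F n) (Fin n) j

/-- The generic vector `f_i = ∑ j, a_ij e_j`. -/
noncomputable def genVec (F : Type u) [Field F] (n : ℕ) (i : Fin n) : Fin n → GenField F n :=
  ∑ j, genCoeff F n i j • stdVec F n j

/-- `e_S = e_{s_1} ∧ ⋯ ∧ e_{s_k}` for `S = {s_1 < ⋯ < s_k}`. -/
noncomputable def eWedge (F : Type u) [Field F] {n k : ℕ} (S : KSet n k) :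
    ⋀[GenField F n]^k (Fin n → GenField F n) :=
  exteriorPower.ιMulti_family (GenField F n) k (stdVec F n) S

/-- `f_S = f_{s_1} ∧ ⋯ ∧ f_{s_k}` for `S = {s_1 < ⋯ < s_k}`. -/
noncomputable def fWedge (F : Type u) [Field F] {n k : ℕ} (S : KSet n k) :
    ⋀[GenField F n]^k (Fin n → GenField F n) :=
  exteriorPower.ιMulti_family (GenField F n) k (genVec F n) S

/-- Lexicographic order: `S <_lex T` iff `S ≠ T` and `min (S △ T) ∈ S`, i.e. the least element
at which `S` and `T` differ lies in `S`. -/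
def LexLT {n k : ℕ} (S T : KSet n k) : Prop :=
  ∃ i : Fin n, i ∈ S ∧ i ∉ T ∧ ∀ j : Fin n, j < i → (j ∈ S ↔ j ∈ T)

/-- `H` is an initial lex-segment. -/
def IsInitialLexSegment {n k : ℕ} (H : Set (KSet n k)) : Prop :=
  ∀ S T : KSet n k, T ∈ H → LexLT S T → S ∈ H

/-- `H` is shifted. -/
def IsShifted {n k : ℕ} (H : Set (KSet n k)) : Prop :=
  ∀ S ∈ H, ∀ j ∈ S, ∀ i : Fin n, i < j → i ∉ S →
    ∀ S' : KSet n k, (S' : Finset (Fin n)) = insert i ((S : Finset (Fin n)).erase j) → S' ∈ H

/-- `Δ^e(G)`: the `k`-sets `S` with `f_S ∉ W_G + span {f_R : R <_lex S}`, where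
`W_G = span {e_T : T ∉ G}`. -/
def extShift (F : Type u) [Field F] {n k : ℕ} (G : Set (KSet n k)) : Set (KSet n k) :=
  {S | fWedge F S ∉ Submodule.span (GenField F n) (eWedge F '' {T | T ∉ G}) ⊔
      Submodule.span (GenField F n) (fWedge F '' {R | LexLT R S})}

/-- `H` is matroidal: `M(H) = {G : Δ^e(G) = H}` is the set of bases of a matroid on the ground
set of all `k`-subsets of `[n]`. -/
def IsMatroidal (F : Type u) [Field F] {n k : ℕ} (H : Set (KSet n k)) : Prop :=
  ∃ N : Matroid (KSet n k), N.E = Set.univ ∧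
    ∀ B : Set (KSet n k), N.IsBase B ↔ extShift F B = H

end Pool.Agent.H33.ExtShift
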