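import Mathlib
import Pool.Agent.Lib_helper33.ExtShift.Defs
import Pool.Agent.Lib_helper33.ExtShift.Abstract

set_option linter.unusedSectionVars false

namespace Pool.Agent.H33.ExtShift

open Module Submodule

universe u

variable {F : Type u} [Field F] {n k : ℕ}

/-! ### The lexicographic order -/

open Classical in
/-- key for the lexicographic order. -/
noncomputable def lexKey (S : KSet n k) : Lex (Fin n → Bool) := toLex fun i => decide (i ∉ S)

open Classical in
theorem lexKey_apply_eq (S T : KSet n k) (i : Fin n) :
    lexKey S i = lexKey T i ↔ (i ∈ S ↔ i ∈ T) := by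
  show decide (i ∉ S) = decide (i ∉ T) ↔ _
  rw [decide_eq_decide]
  exact not_iff_not

open Classical in
theorem lexKey_apply_lt (S T : KSet n k) (i : Fin n) :
    lexKey S i < lexKey T i ↔ (i ∈ S ∧ i ∉ T) := by
  show decide (i ∉ S) < decide (i ∉ T) ↔ _
  by_cases hS : i ∈ S <;> by_cases hT : i ∈ T <;> simp [hS, hT]

theorem lexKey_injective : Function.Injective (lexKey : KSet n k → Lex (Fin n → Bool)) := by
  intro S T h
  apply SetLike.ext
  intro i
  exact (lexKey_apply_eq S T i).1 (congrFun h i)

theorem lexLT_iff (S T : KSet n k) : LexLT S T ↔ lexKey S < lexKey T := by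
  constructor
  · rintro ⟨i, hS, hT, hj⟩
    exact ⟨i, fun j hji => (lexKey_apply_eq S T j).2 (hj j hji),
      (lexKey_apply_lt S T i).2 ⟨hS, hT⟩⟩
  · rintro ⟨i, hj, hlt⟩
    have h1 := (lexKey_apply_lt S T i).1 hlt
    exact ⟨i, h1.1, h1.2, fun j hji => (lexKey_apply_eq S T j).1 (hj j hji)⟩

/-! ### Coordinates -/

/-- the elements of `S` in increasing order. -/
def ord (S : KSet n k) : Fin k → Fin n := fun i => Set.powersetCard.ofFinEmbEquiv.symm S i

/-- The coordinate of `f_S` at `e_T`: the minor with rows `S` and columns `T`. -/
noncomputable def minor (F : Type u) [Field F] (S T : KSet n k) : GenField F n :=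
  Matrix.det (Matrix.of fun i j : Fin k => genCoeff F n (ord S i) (ord T j))

noncomputable def coordEquiv (F : Type u) [Field F] (n k : ℕ) :
    (⋀[GenField F n]^k (Fin n → GenField F n)) ≃ₗ[GenField F n] (KSet n k → GenField F n) :=
  ((Pi.basisFun (GenField F n) (Fin n)).exteriorPower k).equivFun

theorem coord_genVec (i j : Fin n) :
    (Pi.basisFun (GenField F n) (Fin n)).coord j (genVec F n i) = genCoeff F n i j := by
  simp [genVec, stdVec, Pi.single_apply]

theorem coordEquiv_fWedge (S : KSet n k) : coordEquiv F n k (fWedge F S) = minor F S := by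
  funext T
  have : coordEquiv F n k (fWedge F S) T =
      ((Pi.basisFun (GenField F n) (Fin n)).exteriorPower k).repr (fWedge F S) T := rfl
  rw [this, exteriorPower.basis_repr_apply, fWedge, exteriorPower.ιMulti_family,
    exteriorPower.ιMultiDual_apply_ιMulti]
  unfold minor ord
  congr 1
  ext i j
  simp only [Matrix.of_apply, Function.comp_apply]
  exact coord_genVec _ _

theorem coordEquiv_eWedge (S : KSet n k) :
    coordEquiv F n k (eWedge F S) = Pi.single S 1 := by
  have h : eWedge F S = (Pi.basisFun (GenField F n) (Fin n)).exteriorPower k S := by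
    rw [exteriorPower.basis_apply]; rfl
  funext T
  have h2 : coordEquiv F n k (eWedge F S) T =
      ((Pi.basisFun (GenField F n) (Fin n)).exteriorPower k).repr (eWedge F S) T := rfl
  rw [h2, h, Basis.repr_self, Finsupp.single_apply, Pi.single_apply]
  simp only [eq_comm]

/-- The subspace `W_G + span {f_R : R < S}` in coordinates. -/
noncomputable def badSpace (F : Type u) [Field F] (G : Set (KSet n k)) (S : KSet n k) :
    Submodule (GenField F n) (KSet n k → GenField F n) :=
  span (GenField F n) ((fun T : KSet n k => (Pi.single T 1 : KSet n k → GenField F n)) '' {T | T ∉ G})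
    ⊔ span (GenField F n) (minor F '' {R | LexLT R S})

theorem mem_extShift_iff (G : Set (KSet n k)) (S : KSet n k) :
    S ∈ extShift F G ↔ minor F S ∉ badSpace F G S := by
  have hmap : (span (GenField F n) (eWedge F '' {T : KSet n k | T ∉ G}) ⊔
      span (GenField F n) (fWedge F '' {R | LexLT R S})).map
        (coordEquiv F n k : _ →ₗ[GenField F n] _) = badSpace F G S := by
    rw [Submodule.map_sup, Submodule.map_span, Submodule.map_span, badSpace]
    congr 2
    · rw [← Set.image_comp]
      apply Set.image_congr
      intro T _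
      exact coordEquiv_eWedge T
    · rw [← Set.image_comp]
      apply Set.image_congr
      intro T _
      exact coordEquiv_fWedge T
  have h1 : S ∈ extShift F G ↔ fWedge F S ∉
      span (GenField F n) (eWedge F '' {T : KSet n k | T ∉ G}) ⊔
      span (GenField F n) (fWedge F '' {R | LexLT R S}) := Iff.rfl
  rw [h1, not_iff_not, ← hmap, ← coordEquiv_fWedge]
  constructor
  · intro h
    exact Submodule.mem_map_of_mem h
  · rintro ⟨x, hx, hx2⟩
    have : x = fWedge F S := (coordEquiv F n k).injective hx2
    rwa [← this]

/-! ### Restriction to `G` and the counting formula -/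

/-- restriction to the coordinates in `G`. -/
noncomputable def restr (F : Type u) [Field F] (G : Set (KSet n k)) :
    (KSet n k → GenField F n) →ₗ[GenField F n] (G → GenField F n) :=
  LinearMap.funLeft _ _ (Subtype.val : G → KSet n k)

theorem restr_ker (G : Set (KSet n k)) :
    LinearMap.ker (restr F G) = span (GenField F n)
      ((fun T : KSet n k => (Pi.single T 1 : KSet n k → GenField F n)) '' {T | T ∉ G}) := by
  classical
  apply le_antisymm
  · intro x hx
    rw [LinearMap.mem_ker] at hx
    have hx' : ∀ T ∈ G, x T = 0 := fun T hT => congrFun hx ⟨T, hT⟩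
    have : x = ∑ T : KSet n k, x T • (Pi.single T 1 : KSet n k → GenField F n) := by
      funext U
      rw [Finset.sum_apply, Finset.sum_eq_single U]
      · simp
      · intro T _ hTU
        simp [Pi.single_apply, hTU.symm]
      · intro h; exact absurd (Finset.mem_univ U) h
    rw [this]
    apply Submodule.sum_mem
    intro T _
    by_cases hT : T ∈ G
    · rw [hx' T hT, zero_smul]; exact zero_mem _
    · exact Submodule.smul_mem _ _ (subset_span ⟨T, hT, rfl⟩)
  · rw [span_le]
    rintro _ ⟨T, hT, rfl⟩
    rw [SetLike.mem_coe, LinearMap.mem_ker]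
    funext U
    show (Pi.single T 1 : KSet n k → GenField F n) U.1 = 0
    rw [Pi.single_apply, if_neg]
    intro h
    exact hT (h ▸ U.2)

theorem mem_extShift_iff' (G : Set (KSet n k)) (S : KSet n k) :
    S ∈ extShift F G ↔ restr F G (minor F S) ∉
      span (GenField F n) ((fun R => restr F G (minor F R)) '' {R | lexKey R < lexKey S}) := by
  rw [mem_extShift_iff, not_iff_not, badSpace, ← restr_ker]
  have h1 : (fun R => restr F G (minor F R)) '' {R : KSet n k | lexKey R < lexKey S} =
      restr F G '' (minor F '' {R | LexLT R S}) := by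
    rw [← Set.image_comp]
    have : {R : KSet n k | lexKey R < lexKey S} = {R | LexLT R S} := by
      ext R; exact (lexLT_iff R S).symm
    rw [this]; rfl
  rw [h1, ← Submodule.map_span, ← Submodule.mem_comap, Submodule.comap_map_eq, sup_comm]

/-- the column vectors -/
noncomputable def colVec (F : Type u) [Field F] (L : Finset (KSet n k)) (T : KSet n k) :
    L → GenField F n := fun R => minor F R.1 T

/-- lower sets for the lexicographic order -/
def IsLow (L : Finset (KSet n k)) : Prop := ∀ S ∈ L, ∀ R, lexKey R < lexKey S → R ∈ L

open Classical in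
theorem card_filter_extShift (L : Finset (KSet n k)) (hL : IsLow L) (G : Set (KSet n k)) :
    (L.filter (· ∈ extShift F G)).card =
      finrank (GenField F n) (span (GenField F n) (colVec F L '' G)) := by
  have h1 := greedy_count (K := GenField F n) lexKey lexKey_injective
    (fun R => restr F G (minor F R)) L hL
  have h2 : (L.filter (· ∈ extShift F G)) = L.filter fun S =>
      restr F G (minor F S) ∉
      span (GenField F n) ((fun R => restr F G (minor F R)) '' {R | lexKey R < lexKey S}) := by
    apply Finset.filter_congr
    intro S _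
    exact mem_extShift_iff' G S
  rw [h2]
  refine Eq.trans ?_ (h1.trans ?_)
  · congr 1
  let A : Matrix L G (GenField F n) := Matrix.of fun R T => minor F R.1 T.1
  have hr := A.rank_eq_finrank_span_row
  have hc := A.rank_eq_finrank_span_cols
  have e1 : (fun R => restr F G (minor F R)) '' (L : Set (KSet n k)) = Set.range A.row := by
    ext x
    constructor
    · rintro ⟨R, hR, rfl⟩
      exact ⟨⟨R, hR⟩, rfl⟩
    · rintro ⟨⟨R, hR⟩, rfl⟩
      exact ⟨R, hR, rfl⟩
  have e2 : colVec F L '' G = Set.range A.col := by
    ext x
    constructor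
    · rintro ⟨R, hR, rfl⟩
      exact ⟨⟨R, hR⟩, rfl⟩
    · rintro ⟨⟨R, hR⟩, rfl⟩
      exact ⟨R, hR, rfl⟩
  rw [e1, e2, ← hr, hc]

/-! ### Genericity -/

theorem genVec_linearIndependent : LinearIndependent (GenField F n) (genVec F n) := by
  classical
  have hdet : (Matrix.of fun i j => genCoeff F n i j).det ≠ 0 := by
    have h0 := Matrix.det_mvPolynomialX_ne_zero (Fin n) F
    have h1 : (Matrix.of fun i j => genCoeff F n i j) =
        (algebraMap (MvPolynomial (Fin n × Fin n) F) (GenField F n)).mapMatrix
          (Matrix.mvPolynomialX (Fin n) (Fin n) F) := by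
      ext i j
      simp [genCoeff, Matrix.mvPolynomialX]
    rw [h1, ← RingHom.map_det]
    intro h
    exact h0 ((IsFractionRing.injective (MvPolynomial (Fin n × Fin n) F) (GenField F n))
      (by rw [h, map_zero]))
  have h2 := Matrix.linearIndependent_rows_of_det_ne_zero hdet
  have h3 : (Matrix.of fun i j => genCoeff F n i j).row = genVec F n := by
    funext i
    funext j
    exact (coord_genVec i j).symm
  rw [← h3]
  exact h2

theorem extShift_univ : extShift F (Set.univ : Set (KSet n k)) = Set.univ := by
  have hli : LinearIndependent (GenField F n) (fWedge F : KSet n k → _) :=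
    exteriorPower.ιMulti_family_linearIndependent_field k genVec_linearIndependent
  rw [Set.eq_univ_iff_forall]
  intro S
  show fWedge F S ∉ _
  have h0 : {T : KSet n k | T ∉ (Set.univ : Set (KSet n k))} = ∅ := by
    ext; simp
  rw [h0, Set.image_empty, span_empty, bot_sup_eq]
  apply hli.notMem_span_image
  intro h
  have := (lexLT_iff S S).1 h
  exact lt_irrefl _ this

/-! ### The action of the symmetric group -/

/-- the field automorphism `a_ij ↦ a_{i,π(j)}`. -/
noncomputable def fieldAut (F : Type u) [Field F] (n : ℕ) (π : Equiv.Perm (Fin n)) :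
    GenField F n →+* GenField F n :=
  (IsFractionRing.ringEquivOfRingEquiv (K := GenField F n) (L := GenField F n)
    (MvPolynomial.renameEquiv F (Equiv.prodCongr (Equiv.refl (Fin n)) π)).toRingEquiv).toRingHom

theorem fieldAut_genCoeff (π : Equiv.Perm (Fin n)) (i j : Fin n) :
    fieldAut F n π (genCoeff F n i j) = genCoeff F n i (π j) := by
  unfold fieldAut genCoeff
  simp

/-- the permutation of the `k`-sets induced by a permutation of `[n]`. -/
def act (π : Equiv.Perm (Fin n)) : Equiv.Perm (KSet n k) where
  toFun S := Set.powersetCard.map k π.toEmbedding S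
  invFun S := Set.powersetCard.map k π.symm.toEmbedding S
  left_inv S := by
    apply Subtype.ext
    simp [Set.powersetCard.val_map, Finset.map_map]
  right_inv S := by
    apply Subtype.ext
    simp [Set.powersetCard.val_map, Finset.map_map]

theorem act_val (π : Equiv.Perm (Fin n)) (S : KSet n k) :
    (act π S).1 = S.1.map π.toEmbedding := rfl

theorem ord_injective (S : KSet n k) : Function.Injective (ord S) :=
  (Set.powersetCard.ofFinEmbEquiv.symm S).injective

theorem range_ord (S : KSet n k) : Set.range (ord S) = {i | i ∈ S} := by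
  ext i
  exact Set.powersetCard.mem_range_ofFinEmbEquiv_symm_iff_mem S i

theorem exists_perm (π : Equiv.Perm (Fin n)) (T : KSet n k) :
    ∃ τ : Equiv.Perm (Fin k), ∀ j, ord (act π T) j = π (ord T (τ j)) := by
  have hr : Set.range (ord (act π T)) = Set.range (fun j => π (ord T j)) := by
    rw [range_ord]
    ext i
    constructor
    · intro hi
      have h1 : i ∈ (act π T).1 := hi
      rw [act_val, Finset.mem_map] at h1
      obtain ⟨x, hx, hxi⟩ := h1
      have : x ∈ Set.range (ord T) := by rw [range_ord]; exact hx
      obtain ⟨j, rfl⟩ := this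
      exact ⟨j, hxi⟩
    · rintro ⟨j, rfl⟩
      have : ord T j ∈ Set.range (ord T) := ⟨j, rfl⟩
      rw [range_ord] at this
      show π (ord T j) ∈ (act π T).1
      rw [act_val, Finset.mem_map]
      exact ⟨_, this, rfl⟩
  have hinj : Function.Injective (fun j => π (ord T j)) :=
    π.injective.comp (ord_injective T)
  let e1 := Equiv.ofInjective _ (ord_injective (act π T))
  let e2 := Equiv.ofInjective _ hinj
  let τ : Equiv.Perm (Fin k) := (e1.trans (Equiv.setCongr hr)).trans e2.symm
  refine ⟨τ, fun j => ?_⟩
  have h1 : e2 (τ j) = Equiv.setCongr hr (e1 j) := by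
    simp [τ]
  have h2 := congrArg Subtype.val h1
  exact h2.symm

theorem exists_sign (π : Equiv.Perm (Fin n)) (T : KSet n k) :
    ∃ ε : GenField F n, ε * ε = 1 ∧
      ∀ S : KSet n k, minor F S (act π T) = ε * fieldAut F n π (minor F S T) := by
  obtain ⟨τ, hτ⟩ := exists_perm π T
  refine ⟨((Equiv.Perm.sign τ : ℤˣ) : ℤ), ?_, ?_⟩
  · rw [← Int.cast_mul, ← Units.val_mul, Int.units_mul_self]; simp
  · intro S
    unfold minor
    have h1 : (Matrix.of fun i j : Fin k => genCoeff F n (ord S i) (ord (act π T) j)) =
        (Matrix.of fun i j : Fin k => genCoeff F n (ord S i) (π (ord T j))).submatrix id τ := by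
      ext i j
      simp [hτ]
    rw [h1, Matrix.det_permute', RingHom.map_det]
    congr 2
    ext i j
    simp [fieldAut_genCoeff]

/-- the chosen sign -/
noncomputable def sgn (F : Type u) [Field F] (π : Equiv.Perm (Fin n)) (T : KSet n k) :
    GenField F n := (exists_sign (F := F) π T).choose

theorem sgn_mul_self (π : Equiv.Perm (Fin n)) (T : KSet n k) :
    sgn F π T * sgn F π T = 1 := (exists_sign (F := F) π T).choose_spec.1

theorem minor_act (π : Equiv.Perm (Fin n)) (S T : KSet n k) :
    minor F S (act π T) = sgn F π T * fieldAut F n π (minor F S T) :=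
  (exists_sign (F := F) π T).choose_spec.2 S

/-- the semilinear map induced by `π` -/
noncomputable def semi (F : Type u) [Field F] (π : Equiv.Perm (Fin n)) :
    (KSet n k → GenField F n) →ₛₗ[fieldAut F n π] (KSet n k → GenField F n) where
  toFun x := fun U => sgn F π ((act π).symm U) * fieldAut F n π (x ((act π).symm U))
  map_add' x y := by funext U; simp [mul_add]
  map_smul' r x := by funext U; simp; ring

theorem semi_minor (π : Equiv.Perm (Fin n)) (S : KSet n k) :
    semi F π (minor F S) = minor F S := by
  funext U
  show sgn F π ((act π).symm U) * fieldAut F n π (minor F S ((act π).symm U)) = _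
  rw [← minor_act, Equiv.apply_symm_apply]

theorem semi_single (π : Equiv.Perm (Fin n)) (T : KSet n k) :
    semi F π (Pi.single T 1) = sgn F π T • (Pi.single (act π T) 1 : KSet n k → GenField F n) := by
  funext U
  show sgn F π ((act π).symm U) *
    fieldAut F n π ((Pi.single T 1 : KSet n k → GenField F n) ((act π).symm U)) = _
  rw [Pi.smul_apply, Pi.single_apply, Pi.single_apply]
  by_cases h : U = act π T
  · subst h
    simp
  · have h' : ¬ (act π).symm U = T := by
      intro h2; apply h; rw [← h2]; simp
    rw [if_neg h, if_neg h']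
    simp

theorem extShift_act_subset (π : Equiv.Perm (Fin n)) (G : Set (KSet n k)) :
    extShift F (act π '' G) ⊆ extShift F G := by
  intro S hS
  rw [mem_extShift_iff] at hS ⊢
  intro hmem
  apply hS
  have hle : badSpace F G S ≤ (badSpace F (act π '' G) S).comap (semi F π) := by
    rw [badSpace]
    apply sup_le
    · rw [span_le]
      rintro _ ⟨T, hT, rfl⟩
      show semi F π (Pi.single T 1) ∈ badSpace F (act π '' G) S
      rw [semi_single]
      apply Submodule.smul_mem
      apply Submodule.mem_sup_left
      apply subset_span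
      refine ⟨act π T, ?_, rfl⟩
      rintro ⟨T', hT', h⟩
      have := (act π).injective h
      exact hT (this ▸ hT')
    · rw [span_le]
      rintro _ ⟨R, hR, rfl⟩
      show semi F π (minor F R) ∈ badSpace F (act π '' G) S
      rw [semi_minor]
      exact Submodule.mem_sup_right (subset_span ⟨R, hR, rfl⟩)
  have := hle hmem
  rw [Submodule.mem_comap, semi_minor] at this
  exact this

theorem act_symm (π : Equiv.Perm (Fin n)) : (act (k := k) π.symm) = (act π).symm := rfl

theorem extShift_act (π : Equiv.Perm (Fin n)) (G : Set (KSet n k)) :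
    extShift F (act π '' G) = extShift F G := by
  apply Set.Subset.antisymm (extShift_act_subset π G)
  have h := extShift_act_subset (F := F) π.symm (act π '' G)
  rw [← Set.image_comp] at h
  have h2 : (act (k := k) π.symm : KSet n k → KSet n k) ∘ (act π) = id := by
    funext T
    rw [act_symm]
    simp
  rw [h2, Set.image_id] at h
  exact h

/-- entrywise field automorphism -/
noncomputable def semiCol (F : Type u) [Field F] (π : Equiv.Perm (Fin n))
    (L : Finset (KSet n k)) :
    (L → GenField F n) →ₛₗ[fieldAut F n π] (L → GenField F n) where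
  toFun x := fun R => fieldAut F n π (x R)
  map_add' x y := by funext U; simp
  map_smul' r x := by funext U; simp

theorem semiCol_colVec (π : Equiv.Perm (Fin n)) (L : Finset (KSet n k)) (T : KSet n k) :
    semiCol F π L (colVec F L T) = sgn F π T • colVec F L (act π T) := by
  funext R
  show fieldAut F n π (minor F R.1 T) = sgn F π T * minor F R.1 (act π T)
  rw [minor_act, ← mul_assoc, sgn_mul_self, one_mul]

theorem colVec_act (π : Equiv.Perm (Fin n)) (L : Finset (KSet n k)) (T : KSet n k) :
    colVec F L (act π T) = sgn F π T • semiCol F π L (colVec F L T) := by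
  rw [semiCol_colVec, smul_smul, sgn_mul_self, one_smul]

open Classical in
theorem colVec_mem_act (π : Equiv.Perm (Fin n)) (L : Finset (KSet n k)) (X : Finset (KSet n k))
    (T : KSet n k)
    (h : colVec F L T ∈ span (GenField F n) (colVec F L '' (X : Set (KSet n k)))) :
    colVec F L (act π T) ∈
      span (GenField F n) (colVec F L '' ((X.image (act π) : Finset (KSet n k)) : Set (KSet n k))) := by
  have hle : span (GenField F n) (colVec F L '' (X : Set (KSet n k))) ≤
      (span (GenField F n)
        (colVec F L '' ((X.image (act π) : Finset (KSet n k)) : Set (KSet n k)))).comap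
          (semiCol F π L) := by
    rw [span_le]
    rintro _ ⟨U, hU, rfl⟩
    rw [SetLike.mem_coe, Submodule.mem_comap, semiCol_colVec]
    apply Submodule.smul_mem
    apply subset_span
    refine ⟨act π U, ?_, rfl⟩
    exact Finset.mem_image_of_mem _ hU
  have h2 := hle h
  rw [Submodule.mem_comap] at h2
  rw [colVec_act]
  exact Submodule.smul_mem _ _ h2

theorem exists_act (S T : KSet n k) : ∃ π : Equiv.Perm (Fin n), act π S = T := by
  classical
  have hcard : S.1.card = T.1.card := by
    rw [S.2, T.2]
  let e : {x // x ∈ S.1} ≃ {x // x ∈ T.1} := Finset.equivOfCardEq hcard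
  refine ⟨Equiv.extendSubtype e, ?_⟩
  apply Subtype.ext
  rw [act_val]
  apply Finset.eq_of_subset_of_card_le
  · intro x hx
    rw [Finset.mem_map] at hx
    obtain ⟨y, hy, rfl⟩ := hx
    show (Equiv.extendSubtype e) y ∈ T.1
    exact Equiv.extendSubtype_mem e y hy
  · rw [Finset.card_map, hcard]

/-! ### The theorem -/

theorem initial_of_matroidal (H : Set (KSet n k)) (hH : IsMatroidal F H) :
    IsInitialLexSegment H := by
  classical
  obtain ⟨N, hNE, hN⟩ := hH
  by_contra hcon
  unfold IsInitialLexSegment at hcon
  push Not at hcon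
  obtain ⟨S, T, hT, hST, hS⟩ := hcon
  rw [lexLT_iff] at hST
  -- the least k-set not in H
  obtain ⟨T0, hT0, hmin⟩ := Finset.exists_min_image
    (Finset.univ.filter fun S : KSet n k => S ∉ H) lexKey ⟨S, by simp [hS]⟩
  have hT0H : T0 ∉ H := (Finset.mem_filter.1 hT0).2
  have hT0T : lexKey T0 < lexKey T := lt_of_le_of_lt (hmin S (by simp [hS])) hST
  set L : Finset (KSet n k) := Finset.univ.filter fun R => lexKey R ≤ lexKey T0 with hLdef
  have hL : IsLow L := by
    intro S hS R hR
    rw [hLdef, Finset.mem_filter] at hS ⊢
    exact ⟨Finset.mem_univ _, le_trans (le_of_lt hR) hS.2⟩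
  have huniv : IsLow (Finset.univ : Finset (KSet n k)) := fun S _ R _ => Finset.mem_univ R
  set p : ℕ := (L.filter (· ∈ H)).card with hp
  have h1 : ∀ B : Finset (KSet n k), N.IsBase (B : Set (KSet n k)) →
      finrank (GenField F n) (span (GenField F n) (colVec F L '' (B : Set (KSet n k)))) = p := by
    intro B hB
    rw [← card_filter_extShift L hL, (hN _).1 hB]
  refine matroid_contradiction (K := GenField F n) (colVec F L) N hNE p h1 ?_ ?_ ?_
  · intro B hB
    have h2 := card_filter_extShift (F := F) Finset.univ huniv (B : Set (KSet n k))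
    rw [(hN _).1 hB] at h2
    have h3 : finrank (GenField F n) (span (GenField F n)
        (colVec F Finset.univ '' (B : Set (KSet n k)))) ≤ B.card := by
      have h4 := finrank_union_le (K := GenField F n) (colVec F Finset.univ) ∅ B
      rw [Finset.empty_union, Finset.coe_empty, Set.image_empty, span_empty, finrank_bot,
        zero_add] at h4
      exact h4
    rw [← h2] at h3
    refine lt_of_lt_of_le (Finset.card_lt_card ?_) h3
    rw [Finset.ssubset_iff_of_subset]
    · refine ⟨T, by simp [hT], ?_⟩
      intro hTL
      have := (Finset.mem_filter.1 (Finset.mem_filter.1 hTL).1).2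
      exact absurd hT0T (not_lt.2 this)
    · exact Finset.filter_subset_filter _ (Finset.subset_univ _)
  · have h2 := card_filter_extShift (F := F) L hL Set.univ
    rw [Set.image_univ] at h2
    rw [← h2]
    apply Finset.card_lt_card
    rw [Finset.ssubset_iff_of_subset]
    · refine ⟨T0, ?_, ?_⟩
      · rw [Finset.mem_filter, hLdef, Finset.mem_filter, extShift_univ]
        exact ⟨⟨Finset.mem_univ _, le_rfl⟩, Set.mem_univ _⟩
      · intro h
        exact hT0H (Finset.mem_filter.1 h).2
    · intro R hR
      rw [Finset.mem_filter] at hR ⊢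
      rw [extShift_univ]
      exact ⟨hR.1, Set.mem_univ _⟩
  · intro x y
    obtain ⟨π, hπ⟩ := exists_act x y
    refine ⟨act π, hπ, ?_, ?_⟩
    · intro B hB
      rw [hN, Finset.coe_image, extShift_act]
      exact (hN _).1 hB
    · intro X T hX
      exact colVec_mem_act π L X T hX

end Pool.Agent.H33.ExtShift
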