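import Mathlib
import Pool.Agent.Lib_helper33.ExtShift.Main

/-!
# Kalai's exterior algebraic shifting of `k`-uniform hypergraphs (statement-level definitions)

`KSet n k` is the type of `k`-subsets of `[n]` (`Fin n`).  For a field `K` let `V = K^n`
(`Vec K n`) and `⋀ V` its exterior algebra (`ExtAlg K n`). `wedge v S ∈ ⋀^k V ⊆ ⋀ V` is the
wedge product of the vectors `v_s`, `s ∈ S`, taken in increasing order.  `GenField F n` is the
field `𝔽(a_ij : i, j)`.  With `f_i = (a_ij)_j = ∑ j, a_ij e_j` one has `f_S = wedge f S` and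
`e_S = wedge e S`.
-/

namespace Pool.Agent.H33.ExtShift

universe u

/-- The space `V = K^n`. -/
def Vec (K : Type u) (n : ℕ) : Type u := Fin n → K

instance instAddCommGroupVec (K : Type u) [Field K] (n : ℕ) : AddCommGroup (Vec K n) :=
  inferInstanceAs (AddCommGroup (Fin n → K))

instance instModuleVec (K : Type u) [Field K] (n : ℕ) : Module K (Vec K n) :=
  inferInstanceAs (Module K (Fin n → K))

/-- The standard basis `e_1, …, e_n` of `V = K^n`. -/
def stdBasis (K : Type u) [Field K] (n : ℕ) (j : Fin n) : Vec K n :=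
  fun i => if i = j then 1 else 0

/-- The exterior algebra `⋀ V` of `V = K^n`. -/
def ExtAlg (K : Type u) [Field K] (n : ℕ) : Type u := ExteriorAlgebra K (Vec K n)

noncomputable instance instAddCommGroupExtAlg (K : Type u) [Field K] (n : ℕ) :
    AddCommGroup (ExtAlg K n) := inferInstanceAs (AddCommGroup (ExteriorAlgebra K (Vec K n)))

noncomputable instance instModuleExtAlg (K : Type u) [Field K] (n : ℕ) :
    Module K (ExtAlg K n) := inferInstanceAs (Module K (ExteriorAlgebra K (Vec K n)))

/-- `v_{s_1} ∧ ⋯ ∧ v_{s_k} ∈ ⋀^k V` for `S = {s_1 < ⋯ < s_k}`. -/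
noncomputable def wedge {K : Type u} [Field K] {n k : ℕ} (v : Fin n → Vec K n)
    (S : KSet n k) : ExtAlg K n :=
  ExteriorAlgebra.ιMulti_family K k v S

/-- `Δ^e(G)` (for the vectors `f_1, …, f_n`): the `k`-sets `S` with
`f_S ∉ W_G + span {f_R : R <_lex S}`, where `W_G = span {e_T : T ∉ G}`. -/
def extShifting {K : Type u} [Field K] {n k : ℕ} (f : Fin n → Vec K n)
    (G : Set (KSet n k)) : Set (KSet n k) :=
  {S | wedge f S ∉ Submodule.span K (wedge (stdBasis K n) '' {T | T ∉ G}) ⊔
    Submodule.span K (wedge f '' {R | LexLT R S})}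

/-- `H` is matroidal: `M(H) = {G : Δ^e(G) = H}` is the set of bases of a matroid on the ground
set of all `k`-subsets of `[n]`. -/
def Matroidal {K : Type u} [Field K] {n k : ℕ} (f : Fin n → Vec K n)
    (H : Set (KSet n k)) : Prop :=
  ∃ N : Matroid (KSet n k), N.E = Set.univ ∧
    ∀ B : Set (KSet n k), N.IsBase B ↔ extShifting f B = H

/-- The polynomial ring `𝔽[a_ij : i, j]` in `n²` variables. -/
def GPoly (F : Type u) [Field F] (n : ℕ) : Type u := MvPolynomial (Fin n × Fin n) F

noncomputable instance instCommRingGPoly (F : Type u) [Field F] (n : ℕ) :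
    CommRing (GPoly F n) := inferInstanceAs (CommRing (MvPolynomial (Fin n × Fin n) F))

instance instIsDomainGPoly (F : Type u) [Field F] (n : ℕ) :
    IsDomain (GPoly F n) := inferInstanceAs (IsDomain (MvPolynomial (Fin n × Fin n) F))

/-- The generic vectors `f_i = (a_ij)_j = ∑ j, a_ij e_j` over the field `𝕂 = 𝔽(a_ij : i, j)`. -/
noncomputable def genericVec (F : Type u) [Field F] (n : ℕ) (i : Fin n) :
    Vec (FractionRing (GPoly F n)) n :=
  fun j => algebraMap (GPoly F n) (FractionRing (GPoly F n))
    (MvPolynomial.X (i, j) : MvPolynomial (Fin n × Fin n) F)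

theorem genericVec_eq (F : Type u) [Field F] (n : ℕ) : genericVec F n = genVec F n := by
  funext i
  funext j
  exact (coord_genVec i j).symm

theorem stdBasis_eq (F : Type u) [Field F] (n : ℕ) :
    stdBasis (GenField F n) n = stdVec F n := by
  funext j i
  show (if i = j then 1 else 0) = Pi.basisFun (GenField F n) (Fin n) j i
  rw [Pi.basisFun_apply, Pi.single_apply]

theorem wedge_eq (F : Type u) [Field F] {n k : ℕ} (v : Fin n → Fin n → GenField F n)
    (S : KSet n k) :
    (wedge (K := GenField F n) v S : ExteriorAlgebra (GenField F n) (Fin n → GenField F n)) =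
      (exteriorPower.ιMulti_family (GenField F n) k v S).1 := rfl

theorem extShifting_eq_aux (F : Type u) [Field F] {n k : ℕ} (G : Set (KSet n k)) :
    extShifting (K := GenField F n) (genVec F n) G = extShift F G := by
  ext S
  have hinj := Submodule.subtype_injective (⋀[GenField F n]^k (Fin n → GenField F n))
  have h1 : S ∈ extShift F G ↔ fWedge F S ∉
      Submodule.span (GenField F n) (eWedge F '' {T : KSet n k | T ∉ G}) ⊔
      Submodule.span (GenField F n) (fWedge F '' {R | LexLT R S}) := Iff.rfl
  have h2 : S ∈ extShifting (K := GenField F n) (genVec F n) G ↔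
      (fWedge F S).1 ∉
      (Submodule.span (GenField F n) ((fun T : KSet n k => (eWedge F T).1) '' {T | T ∉ G}) ⊔
      Submodule.span (GenField F n) ((fun R : KSet n k => (fWedge F R).1) '' {R | LexLT R S})) := by
    unfold extShifting eWedge
    rw [← stdBasis_eq]
    exact Iff.rfl
  rw [h1, h2, not_iff_not]
  have h3 : (Submodule.span (GenField F n) ((fun T : KSet n k => (eWedge F T).1) '' {T | T ∉ G}) ⊔
      Submodule.span (GenField F n) ((fun R : KSet n k => (fWedge F R).1) '' {R | LexLT R S})) =
      Submodule.map (⋀[GenField F n]^k (Fin n → GenField F n)).subtype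
      (Submodule.span (GenField F n) (eWedge F '' {T : KSet n k | T ∉ G}) ⊔
      Submodule.span (GenField F n) (fWedge F '' {R | LexLT R S})) := by
    rw [Submodule.map_sup, Submodule.map_span, Submodule.map_span, ← Set.image_comp,
      ← Set.image_comp]
    rfl
  rw [h3]
  constructor
  · rintro ⟨x, hx, hx2⟩
    have : x = fWedge F S := hinj hx2
    rwa [← this]
  · intro h
    exact Submodule.mem_map_of_mem h

theorem extShifting_eq (F : Type u) [Field F] {n k : ℕ} (G : Set (KSet n k)) :
    extShifting (genericVec F n) G = extShift F G := by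
  rw [genericVec_eq]
  exact extShifting_eq_aux F G

theorem initial_of_matroidal' {F : Type u} [Field F] {n k : ℕ} (H : Set (KSet n k))
    (hH : Matroidal (genericVec F n) H) : IsInitialLexSegment H := by
  apply initial_of_matroidal (F := F)
  obtain ⟨N, hNE, hN⟩ := hH
  refine ⟨N, hNE, fun B => ?_⟩
  rw [hN, extShifting_eq]

end Pool.Agent.H33.ExtShift
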